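import Pool.Agent.H.MP_86855d_nt.Proof

namespace Pool.Agent.Results.MP_86855d_nt.NowhereDense

open WeierstrassCurve Pool.Agent.H.MP_86855d_nt

/-- **Disproof of the question.** The elliptic curve `E : y² = x³ - 15x² + x` over `ℚ` has positive
Mordell-Weil rank, and there is no prime `p` for which `E(ℚ)` is dense in `E(ℚ_p)`. -/
theorem result :
    ∃ E : WeierstrassCurve ℚ, E = ⟨0, -15, 0, 1, 0⟩ ∧ E.IsElliptic ∧
      0 < Module.rank ℤ (E⁄ℚ).toAffine.Point ∧ densePrimes E = ∅ :=
  ⟨curve, rfl, curve_isElliptic, rank_pos, densePrimes_curve⟩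

end Pool.Agent.Results.MP_86855d_nt.NowhereDense
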